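import Pool.Agent.P.MP_dc233e_lc.Cn.A

/-!
A computable generic coloured digraph for the twisted gadget law.
-/

namespace Pool.Agent.P.MP_dc233e_lc.Cn

open Pool.Agent.Lib.Helper43 Pool.Agent.P.MP_dc233e_lc.Dg

def chk1 (ψ : ℕ → Bool) (k : ℕ) (L : List Bool) (n : ℕ) (g : List ℕ) : Bool :=
  !(g.contains k) || !shGb (eL k L) g || (par3 rC n (sp n g) (tp n g) == gP ψ n) ||
    (List.range k).any (fun s => gD n s)

def chk (ψ : ℕ → Bool) (k : ℕ) (L : List Bool) : Bool :=
  (List.range (k + 1)).all (fun n => (tuples (gN n) (List.range (k + 1))).all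
    (fun g => chk1 ψ k L n g))

theorem chk_iff (ψ : ℕ → Bool) (k : ℕ) (L : List Bool) : chk ψ k L = true ↔
    ∀ n ≤ k, ∀ g : List ℕ, g.length = gN n → (∀ a ∈ g, a ≤ k) → k ∈ g →
      ShG (fun a b => eL k L (a, b)) g →
      par3 rC n (sp n g) (tp n g) = gP ψ n ∨ ∃ s < k, gD n s = true := by
  have h1 : ∀ g, shGb (eL k L) g = true ↔ ShG (fun a b => eL k L (a, b)) g := fun g => by
    simpa using shGb_iff (E := eL k L) (e := fun a b => eL k L (a, b)) (μ := id)
      (fun _ _ => rfl) g
  simp only [chk, chk1, List.all_eq_true, List.mem_range, mem_tuples, Bool.or_eq_true,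
    Bool.not_eq_true', beq_iff_eq, List.any_eq_true, Nat.lt_succ_iff, ← h1, and_imp]
  refine forall_congr' (fun n => forall_congr' (fun _ => forall_congr' (fun g =>
    forall_congr' (fun _ => forall_congr' (fun _ => ?_)))))
  by_cases h2 : k ∈ g <;> cases shGb (eL k L) g <;> simp [h2]

theorem valid_stdOf {ψ ok : ℕ → Bool} (hok : ∀ k, ok k = chk ψ k ((List.range k).map ok)) :
    TValid ψ (stdOf ok) := by
  intro n g hA hl hg
  have h0 := gN_ge' n
  obtain ⟨k, hk1, hk2⟩ := Finset.exists_max_image g.toFinset id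
    ⟨_, List.mem_toFinset.2 (getD_mem (by omega : 0 < g.length))⟩
  simp only [List.mem_toFinset, id] at hk1 hk2
  obtain ⟨i, hi, e1⟩ := exists_getD hk1
  have h1 : ok k = true := by
    obtain ⟨j, hj, hij⟩ : ∃ j < g.length, i ≠ j := by
      by_cases h : i = 0
      · exact ⟨1, by omega, by omega⟩
      · exact ⟨0, by omega, h⟩
    have h2 : g.getD i 0 ≠ g.getD j 0 := fun h => hij (hg.inj (by omega) _ hi _ hj h)
    have h3 := hk2 _ (getD_mem hj)
    rcases hg.adj (by omega) hi hj hij with h | h
    · simp only [stdOf] at h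
      rw [if_neg h2, Bool.and_eq_true, e1, max_eq_left h3] at h
      exact h.2
    · simp only [stdOf] at h
      rw [if_neg h2.symm, Bool.and_eq_true, e1, max_eq_right h3] at h
      exact h.2
  have h2 : g.length ≤ k + 1 := by
    have := (List.subperm_of_subset (nodup_of_getD (hg.inj (by omega)))
      (l₂ := List.range (k + 1))
      (fun a ha => List.mem_range.2 (Nat.lt_succ_of_le (hk2 a ha)))).length_le
    simpa using this
  have h3 := (chk_iff _ _ _).1 ((hok k).symm.trans h1) n (by omega) g hl hk2 hk1 (by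
    simpa using hg.map (v := id) (e' := fun a b => eL k ((List.range k).map ok) (a, b))
      (fun x hx y hy => (eL_eq ok (hk2 x hx) (hk2 y hy) (Or.inl h1)).symm))
  rcases h3 with h3 | ⟨s, -, h3⟩
  · exact h3
  · rw [(gA_iff n).1 hA s] at h3
    exact absurd h3 (by simp)

theorem gen_stdOf {ψ ok : ℕ → Bool} (hok : ∀ k, ok k = chk ψ k ((List.range k).map ok)) :
    TGen ψ (stdOf ok) := by
  classical
  intro B' hV p hp a
  by_cases ha : ∃ b, (a, b) ∈ p
  · obtain ⟨b, hb⟩ := ha
    have h1 : ∀ x ∈ (a, b) :: p, x ∈ p := fun x hx => by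
      rcases List.mem_cons.1 hx with rfl | hx
      · exact hb
      · exact hx
    exact ⟨b, fun x hx y hy => hp.1 x (h1 x hx) y (h1 y hy),
      fun x hx y hy => hp.2.1 x (h1 x hx) y (h1 y hy),
      fun t h2 => hp.2.2 t (fun x hx => h1 x (h2 x hx))⟩
  · simp only [not_exists] at ha
    let inv : ℕ → ℕ := fun z => if z = 0 then a else
      if h : ∃ x ∈ p, x.2 + 1 = z then h.choose.1 else 0
    have hinv : ∀ x ∈ p, inv (x.2 + 1) = x.1 := by
      intro x hx
      have h : ∃ y ∈ p, y.2 + 1 = x.2 + 1 := ⟨x, hx, rfl⟩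
      simp only [inv, Nat.succ_ne_zero, if_false, dif_pos h]
      exact (hp.1 _ h.choose_spec.1 _ hx).2 (by have := h.choose_spec.2; omega)
    let val : ℕ → Bool := fun c => if c = 0 then B'.e a a else
      if c % 3 = 0 then B'.c ((Denumerable.ofNat (List ℕ) (c / 3 - 1)).map inv) else
      decide (∃ x ∈ p, x.2 = c / 3) &&
        if c % 3 = 1 then B'.e (inv (c / 3 + 1)) a else B'.e a (inv (c / 3 + 1))
    obtain ⟨C1, hC1⟩ := exists_bound ((List.range (p.length + 2)).flatMap (fun j =>
      tuples j (0 :: p.map (fun x => x.2 + 1)))) (fun y : List ℕ => 3 * (Encodable.encode y + 1))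
    obtain ⟨N1, hN1⟩ := exists_bound p (fun x => x.2)
    obtain ⟨N2, hN2⟩ := exists_bound (List.range (p.length + 2))
      (fun n => if h : ∃ s, gD n s = true then h.choose else 0)
    obtain ⟨k, hk1, hk2, hk3⟩ := exists_bits' val (C1 + 3 * N1 + 1) (N1 + N2)
    have hlt : ∀ x ∈ p, x.2 < k := fun x hx => by have := hN1 x hx; omega
    have hinj : ∀ x ∈ (a, k) :: p, ∀ y ∈ (a, k) :: p, (x.1 = y.1 ↔ x.2 = y.2) := by
      have h1 : ∀ y ∈ p, (a = y.1 ↔ k = y.2) := fun y hy =>
        ⟨fun e => absurd (e ▸ hy) (ha y.2), fun e => by have := hlt y hy; omega⟩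
      intro x hx y hy
      rcases List.mem_cons.1 hx with rfl | hx <;> rcases List.mem_cons.1 hy with rfl | hy
      · simp
      · exact h1 y hy
      · have := h1 x hx
        exact ⟨fun e => (this.1 e.symm).symm, fun e => (this.2 e.symm).symm⟩
      · exact hp.1 x hx y hy
    have v1 : ∀ y, val (3 * y + 1) = (decide (∃ x ∈ p, x.2 = y) && B'.e (inv (y + 1)) a) := by
      intro y
      simp only [val]
      rw [if_neg (by omega), if_neg (by omega), if_pos (by omega),
        (by omega : (3 * y + 1) / 3 = y)]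
    have v2 : ∀ y, val (3 * y + 2) = (decide (∃ x ∈ p, x.2 = y) && B'.e a (inv (y + 1))) := by
      intro y
      simp only [val]
      rw [if_neg (by omega), if_neg (by omega), if_neg (by omega),
        (by omega : (3 * y + 2) / 3 = y)]
    have r1 : ∀ y < k, rE y k = k.testBit (3 * y + 1) := fun y hy => by
      rw [rE, if_neg (by omega), if_pos hy]
    have r2 : ∀ y < k, rE k y = k.testBit (3 * y + 2) := fun y hy => by
      rw [rE, if_neg (by omega), if_neg (by omega)]
    have himg : ∀ y < k, rE y k = true ∨ rE k y = true → ∃ x ∈ p, x.2 = y := by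
      intro y hy h
      rw [r1 y hy, r2 y hy] at h
      rcases h with h | h
      · by_cases h1 : 3 * y + 1 < C1 + 3 * N1 + 1
        · rw [hk2 _ h1, v1, Bool.and_eq_true] at h
          exact of_decide_eq_true h.1
        · rw [hk3 _ (by omega) (by omega)] at h
          exact absurd h (by simp)
      · by_cases h1 : 3 * y + 2 < C1 + 3 * N1 + 1
        · rw [hk2 _ h1, v2, Bool.and_eq_true] at h
          exact of_decide_eq_true h.1
        · rw [hk3 _ (by omega) (by omega)] at h
          exact absurd h (by simp)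
    have hE : ∀ x ∈ (a, k) :: p, ∀ y ∈ (a, k) :: p,
        B'.e x.1 y.1 = eL k ((List.range k).map ok) (x.2, y.2) := by
      intro x hx y hy
      rcases List.mem_cons.1 hx with rfl | hx <;> rcases List.mem_cons.1 hy with rfl | hy
      · simp only [eL, if_true, rE]
        rw [hk2 0 (by omega)]; simp [val]
      · have h1 := hlt y hy
        have h2 := hN1 y hy
        simp only [eL]
        rw [if_neg (by omega), max_eq_left h1.le, r2 _ h1, hk2 _ (by omega), v2, hinv y hy,
          decide_eq_true ⟨y, hy, rfl⟩]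
        simp
      · have h1 := hlt x hx
        have h2 := hN1 x hx
        simp only [eL]
        rw [if_neg (by omega), max_eq_right h1.le, r1 _ h1, hk2 _ (by omega), v1, hinv x hx,
          decide_eq_true ⟨x, hx, rfl⟩]
        simp
      · rw [eL_eq ok (hlt x hx).le (hlt y hy).le (Or.inr ⟨hlt x hx, hlt y hy⟩)]
        exact hp.2.1 x hx y hy
    have hC : ∀ t : List (ℕ × ℕ), (∀ x ∈ t, x ∈ (a, k) :: p) → ShU B'.e (t.map Prod.fst) →
        B'.c (t.map Prod.fst) = rC (t.map Prod.snd) := by
      intro t h1 h3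
      by_cases h4 : (a, k) ∈ t
      · have hm : mx (t.map Prod.snd) = k := by
          refine mx_eq (List.mem_map.2 ⟨_, h4, rfl⟩) (fun y hy => ?_)
          obtain ⟨x, hx, rfl⟩ := List.mem_map.1 hy
          rcases List.mem_cons.1 (h1 x hx) with rfl | hx
          · exact le_rfl
          · exact (hlt x hx).le
        have h5 := length_le_of h1 (nodup_of_getD h3.inj)
        simp only [List.length_cons] at h5
        rw [rC, cd, hm, hk2]
        · simp only [val]
          rw [if_neg (by omega), if_pos (by omega), Nat.mul_div_cancel_left _ (by omega : 0 < 3),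
            Nat.add_sub_cancel, Denumerable.ofNat_encode, List.map_map, List.map_map]
          congr 1
          refine List.map_congr_left (fun x hx => ?_)
          rcases List.mem_cons.1 (h1 x hx) with rfl | hx
          · simp [inv]
          · have := hlt x hx
            simp only [Function.comp]
            rw [if_neg (by omega), hinv x hx]
        · refine lt_of_lt_of_le (hC1 _ (List.mem_flatMap.2 ⟨t.length, List.mem_range.2 (by omega),
            mem_tuples.2 ⟨by simp, fun z hz => ?_⟩⟩)) (by omega)
          rw [List.map_map] at hz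
          obtain ⟨x, hx, rfl⟩ := List.mem_map.1 hz
          rcases List.mem_cons.1 (h1 x hx) with rfl | hx
          · simp
          · have := hlt x hx
            simp only [Function.comp]
            rw [if_neg (by omega)]
            exact List.mem_cons_of_mem _ (List.mem_map.2 ⟨x, hx, rfl⟩)
      · refine hp.2.2 t (fun x hx => ?_) h3
        rcases List.mem_cons.1 (h1 x hx) with rfl | hx
        · exact absurd hx h4
        · exact hx
    have hk : ok k = true := by
      rw [hok, chk_iff]
      intro n _ g hl h1 h2 hg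
      have h0 := gN_ge' n
      obtain ⟨i, hi, e1⟩ := exists_getD h2
      have h3 : ∀ y ∈ g, y ∈ ((a, k) :: p).map Prod.snd := by
        intro y hy
        by_cases h4 : y = k
        · simp [h4]
        · obtain ⟨j, hj, rfl⟩ := exists_getD hy
          have h5 : g.getD j 0 < k := lt_of_le_of_ne (h1 _ hy) h4
          obtain ⟨x, hx, e2⟩ := himg _ h5 (by
            rcases hg.adj (by omega) hi hj (by rintro rfl; exact h4 e1) with h | h
            · simp only [eL] at h
              rw [e1, if_neg (by omega), Bool.and_eq_true] at h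
              exact Or.inr h.1
            · simp only [eL] at h
              rw [e1, if_neg (by omega), Bool.and_eq_true] at h
              exact Or.inl h.1)
          exact List.mem_map.2 ⟨x, List.mem_cons_of_mem _ hx, e2⟩
      obtain ⟨t, ht, rfl⟩ := exists_lift h3
      have h4 : ShG B'.e (t.map Prod.fst) :=
        hg.tr (fun x hx y hy => (hE x (ht x hx) y (ht y hy)).symm)
      have h5 : (t.map Prod.fst).length = gN n := by simpa using hl
      by_cases hA : gA n
      · left
        rw [← hV n _ hA h5 h4]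
        have h6 := h4.shU_sp h5
        have h7 := h4.shU_tp h5
        rw [sp_map] at h6
        rw [tp_map] at h7
        have h8 := shU_take1 h6
        rw [← List.map_take] at h8
        rw [par3, par3, sp_map, tp_map, sp_map, tp_map, ← List.map_take, ← List.map_take,
          hC _ (fun x hx => ht x (mem_sp hx)) h6, hC _ (fun x hx => ht x (mem_tp hx)) h7,
          hC _ (fun x hx => ht x (mem_sp (List.mem_of_mem_take hx))) h8]
      · right
        have h8 : ∃ s, gD n s = true := by simpa [gA_iff] using hA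
        have h6 := length_le_of ht (nodup_of_getD (h4.inj (by omega)))
        simp only [List.length_cons, List.length_map] at h6 h5
        have h9 := hN2 n (List.mem_range.2 (by omega))
        simp only [dif_pos h8] at h9
        exact ⟨h8.choose, by omega, h8.choose_spec⟩
    have hle : ∀ x ∈ (a, k) :: p, x.2 ≤ k := fun x hx => by
      rcases List.mem_cons.1 hx with rfl | hx
      · exact le_rfl
      · exact (hlt x hx).le
    exact ⟨k, hinj, fun x hx y hy =>
      (hE x hx y hy).trans (eL_eq ok (hle x hx) (hle y hy) (Or.inl hk)), hC⟩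

attribute [local irreducible] eB in
@[fun_prop] theorem c_gW {γ : Type} [Primcodable γ] {j : γ → ℕ} (h : Computable j) :
    Computable (fun a => gW (j a)) :=
  CFP.and (by fun_prop) (c_eB0.comp (by fun_prop))

attribute [local irreducible] Computable rE rC eX eY deadAt gX gY gN gW sp tp shGb tuples in
theorem c_chk {ψ : ℕ → Bool} (hψ : Computable ψ) :
    Computable (fun x : ℕ × List Bool => chk ψ x.1 x.2) := by
  have h1 : Computable (fun x : ((ℕ × List Bool) × ℕ × List ℕ) × ℕ × ℕ =>
      eL x.1.1.1 x.1.1.2 x.2) :=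
    CFP.ite (CFP.decEq (by fun_prop) (by fun_prop))
      (c_rE.comp (g := fun x : ((ℕ × List Bool) × ℕ × List ℕ) × ℕ × ℕ => (x.2.1, x.2.1))
        (by fun_prop))
      (CFP.and (c_rE.comp Computable.snd) (by fun_prop))
  have h2 : Computable (fun x : (ℕ × List Bool) × ℕ × List ℕ => shGb (eL x.1.1 x.1.2) x.2.2) :=
    c_shGb (E := fun x : (ℕ × List Bool) × ℕ × List ℕ => eL x.1.1 x.1.2) h1 (by fun_prop)
  have h3 : Computable (fun x : (ℕ × List Bool) × ℕ × List ℕ => gP ψ x.2.1) :=
    CFP.ite (CFP.decEq (by fun_prop) (by fun_prop)) (by fun_prop) (by fun_prop)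
  have h4 : Computable (fun x : (ℕ × List Bool) × ℕ × List ℕ =>
      (List.range x.1.1).any (fun s => gD x.2.1 s)) := by unfold gD; fun_prop
  have h5 : Computable (fun x : (ℕ × List Bool) × ℕ × List ℕ => chk1 ψ x.1.1 x.1.2 x.2.1 x.2.2) :=
    CFP.or (CFP.or (CFP.or (by fun_prop) (CFP.not h2))
      (CFP.beq (CFP.xor (CFP.xor (c_rC.comp (by fun_prop)) (c_rC.comp (by fun_prop)))
        (CFP.and (by fun_prop) (c_rC.comp (by fun_prop)))) h3)) h4
  have h6 : Computable (fun x : (ℕ × List Bool) × ℕ =>
      (tuples (gN x.2) (List.range (x.1.1 + 1))).all (fun g => chk1 ψ x.1.1 x.1.2 x.2 g)) :=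
    CFP.all (h5.comp (g := fun y : ((ℕ × List Bool) × ℕ) × List ℕ => (y.1.1, y.1.2, y.2))
      (by fun_prop)) (by fun_prop)
  exact CFP.all h6 (by fun_prop)

attribute [local irreducible] Computable rE in
theorem exists_std {ψ : ℕ → Bool} (hψ : Computable ψ) : ∃ B : DS, TValid ψ B ∧ TGen ψ B ∧
    Computable (fun x : ℕ × ℕ => B.e x.1 x.2) ∧ Computable B.c := by
  obtain ⟨ok, h1, h2⟩ := CFP.exists_strongRec (chk ψ) (c_chk hψ)
  refine ⟨stdOf ok, valid_stdOf h2, gen_stdOf h2, ?_, c_rC⟩
  exact CFP.ite (CFP.decEq (by fun_prop) (by fun_prop))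
    (c_rE.comp (g := fun x : ℕ × ℕ => (x.1, x.1)) (by fun_prop)) (CFP.and c_rE (by fun_prop))

end Pool.Agent.P.MP_dc233e_lc.Cn
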