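import Pool.Agent.P.MP_dc233e_lc.Cn.B

/-!
The twisted generic digraph is autostable; the colour of loopless vertices is flipped by an
automorphism but by no computable one.
-/

namespace Pool.Agent.P.MP_dc233e_lc.Cn

open Pool.Agent.Lib.Helper43 Pool.Agent.P.MP_dc233e_lc.Dg

noncomputable def TD : DS := (exists_std (ψ := fun _ => false) (CFP.const _)).choose

theorem V1 : TValid (fun _ => false) TD :=
  (exists_std (ψ := fun _ => false) (CFP.const _)).choose_spec.1

theorem G1 : TGen (fun _ => false) TD :=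
  (exists_std (ψ := fun _ => false) (CFP.const _)).choose_spec.2.1

theorem TD_ce : Computable (fun x : ℕ × ℕ => TD.e x.1 x.2) :=
  (exists_std (ψ := fun _ => false) (CFP.const _)).choose_spec.2.2.1

theorem TD_cc : Computable TD.c :=
  (exists_std (ψ := fun _ => false) (CFP.const _)).choose_spec.2.2.2

theorem TD_comp : CompDS id TD :=
  ⟨fun x => x.1 == x.2, _, _, by fun_prop, TD_ce, TD_cc, by simp, by simp, by simp⟩

def r1 (a b : ℕ) : Prop := TD.e a b = true

attribute [local irreducible] Computable eX eY eB gX gY gN sp tp shGb shUb lk in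
theorem classify {μ : ℕ → ℕ} (h : Con r1 μ) :
    Aeq r1 μ id := by
  obtain ⟨hs, Q, R, e1, e2, e3, e4⟩ := h
  have e5 : ∀ a b, R (a, b) = TD.e (μ a) (μ b) := fun a b => Bool.eq_iff_iff.2 (e4 a b)
  have hU : Computable (shUb R) := c_shUb (E := fun _ : List ℕ => R) (by fun_prop) CFP.id
  have hG : Computable (shGb R) := c_shGb (E := fun _ : List ℕ => R) (by fun_prop) CFP.id
  have x1 : ∀ x, ∃ n, (((Denumerable.ofNat (List ℕ) n).length == x + 1) &&
      shUb R (Denumerable.ofNat (List ℕ) n)) = true := by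
    intro x
    obtain ⟨w, h1, h2, -⟩ := addW G1 V1 [] (by simp) x false
    obtain ⟨n, hn⟩ := exists_map_eq hs w
    refine ⟨n, ?_⟩
    rw [Bool.and_eq_true, shUb_iff e5, hn]
    exact ⟨by simpa [h1] using congrArg List.length hn, h2⟩
  let c : ℕ → List ℕ := fun x => Denumerable.ofNat (List ℕ) (Nat.find (x1 x))
  have hc : Computable c := CFP.ofNatList (CFP.find (p := fun x n =>
    ((Denumerable.ofNat (List ℕ) n).length == x + 1) && shUb R (Denumerable.ofNat (List ℕ) n))
    (by fun_prop) x1)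
  have hc1 : ∀ x, (c x).length = x + 1 ∧ ShU TD.e ((c x).map μ) := fun x => by
    have := Nat.find_spec (x1 x)
    rw [Bool.and_eq_true, shUb_iff e5, beq_iff_eq] at this
    exact this
  clear_value c
  have x2 : ∀ l, ∃ n, (((Denumerable.ofNat (List ℕ) n).length == gN (3 * l)) &&
      shGb R (Denumerable.ofNat (List ℕ) n)) = true := by
    intro l
    obtain ⟨t, h1, h2⟩ := exists_gad G1 V1 l
    obtain ⟨n, hn⟩ := exists_map_eq hs t
    refine ⟨n, ?_⟩
    rw [Bool.and_eq_true, shGb_iff e5, hn]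
    exact ⟨by simpa [h1] using congrArg List.length hn, h2⟩
  let r : ℕ → List ℕ := fun l => Denumerable.ofNat (List ℕ) (Nat.find (x2 l))
  have hr : Computable r := CFP.ofNatList (CFP.find (p := fun l n =>
    ((Denumerable.ofNat (List ℕ) n).length == gN (3 * l)) && shGb R (Denumerable.ofNat (List ℕ) n))
    (by fun_prop) x2)
  have hr1 : ∀ l, ((r l).map μ).length = gN (3 * l) ∧ ShG TD.e ((r l).map μ) := fun l => by
    have := Nat.find_spec (x2 l)
    rw [Bool.and_eq_true, shGb_iff e5, beq_iff_eq] at this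
    exact ⟨by rw [List.length_map]; exact this.1, this.2⟩
  clear_value r
  let w : ℕ → Bool := fun x => TD.c ((c x).map μ)
  let P : List ℕ → ℕ → Bool := fun t n => !shUb R t ||
    lkb R Q t (c (t.length - 1)) n.bodd (Denumerable.ofNat (List ℕ) (n / 2).unpair.1)
      (Denumerable.ofNat (List ℕ) (n / 2).unpair.2)
  have hP : Computable (fun x : List ℕ × ℕ => P x.1 x.2) := by
    simp only [P, lkb]; fun_prop
  have x3 : ∀ t, ∃ n, P t n = true := by
    intro t
    by_cases h1 : shUb R t = true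
    · have h2 := (shUb_iff e5 t).1 h1
      have h3 : t.length = t.length - 1 + 1 := by have := h2.1; simp only [List.length_map] at this; omega
      obtain ⟨u, g, g', h4, h5⟩ := link G1 V1 h2 (hc1 (t.length - 1)).2 (by simpa using h3)
        (by simpa using (hc1 _).1)
      generalize xor (TD.c (t.map μ)) (TD.c ((c (t.length - 1)).map μ)) = b at h4
      obtain ⟨g1, rfl, k1⟩ := lift_sp hs h4.1 h4.2.2.1
      obtain ⟨g2, rfl, k2⟩ := lift_sp hs h5.1 h5.2.2.1
      refine ⟨Nat.bit b (Nat.pair (Encodable.encode g1) (Encodable.encode g2)), ?_⟩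
      have k3 : ∀ m, Nat.bit b m / 2 = m := fun m => by
        rw [← Nat.div2_val, Nat.div2_bit]
      simp only [P, lkb, Nat.bodd_bit, k3, Nat.unpair_pair, Denumerable.ofNat_encode, h1,
        Bool.not_true, Bool.false_or, Bool.and_eq_true, beq_iff_eq, List.all_eq_true,
        List.mem_range, shGb_iff e5, e3]
      have l1 : g1.length = gN (lk (t.length - 1) b) := by simpa using h4.1
      have l2 : g2.length = gN (lk (t.length - 1) false) := by simpa using h5.1
      refine ⟨⟨⟨⟨⟨⟨l1, h4.2.1⟩, l2⟩, h5.2.1⟩, k1⟩, k2⟩, fun i hi => ?_⟩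
      have k4 := h4.2.2.2.trans h5.2.2.2.symm
      rw [tp_map, tp_map] at k4
      have i1 : i < (tp (lk (t.length - 1) b) g1).length := by
        rw [len_tp l1, (lk_spec (fun _ => false) _ _).2.1]; omega
      have i2 : i < (tp (lk (t.length - 1) false) g2).length := by
        rw [len_tp l2, (lk_spec (fun _ => false) _ _).2.1]; omega
      have k5 := congrArg (fun z => List.getD z i 0) k4
      simp only [getD_map _ _ i1, getD_map _ _ i2] at k5
      simpa [List.getD_eq_getElem?_getD, i1, i2] using k5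
    · exact ⟨0, by simp [P, h1]⟩
  let F : List ℕ → Bool := fun t => (Nat.find (x3 t)).bodd
  have hF : Computable F := CFP.bodd (CFP.find hP x3)
  have hF1 : ∀ t, ShU TD.e (t.map μ) → F t = (dshift w TD).c (t.map μ) := by
    intro t h1
    have h2 := Nat.find_spec (x3 t)
    simp only [F]
    generalize Nat.find (x3 t) = n at h2
    simp only [P, lkb, (shUb_iff e5 t).2 h1, Bool.not_true, Bool.false_or, Bool.and_eq_true,
      beq_iff_eq, List.all_eq_true, List.mem_range, shGb_iff e5, e3] at h2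
    generalize Denumerable.ofNat (List ℕ) (n / 2).unpair.1 = g1 at h2
    generalize Denumerable.ofNat (List ℕ) (n / 2).unpair.2 = g2 at h2
    obtain ⟨⟨⟨⟨⟨⟨l1, a1⟩, l2⟩, a2⟩, k1⟩, k2⟩, k3⟩ := h2
    have h3 : t.length = t.length - 1 + 1 := by have := h1.1; simp only [List.length_map] at this; omega
    have i1 : (tp (lk (t.length - 1) n.bodd) g1).length = t.length := by
      rw [len_tp l1, (lk_spec (fun _ => false) _ _).2.1]; omega
    have i2 : (tp (lk (t.length - 1) false) g2).length = t.length := by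
      rw [len_tp l2, (lk_spec (fun _ => false) _ _).2.1]; omega
    have k4 : (tp (lk (t.length - 1) n.bodd) g1).map μ = (tp (lk (t.length - 1) false) g2).map μ := by
      refine List.ext_getElem (by simp [i1, i2]) (fun i j1 j2 => ?_)
      rw [List.length_map] at j1 j2
      simpa [List.getD_eq_getElem?_getD, j1, j2] using k3 i (by omega)
    have p1 := gad_par V1 (s := t.map μ) (g := g1.map μ)
      ⟨by simpa using l1, a1, by rw [sp_map, k1], tp_map _ _ _⟩
    have p2 := gad_par V1 (s := (c (t.length - 1)).map μ) (g := g2.map μ)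
      ⟨by simpa using l2, a2, by rw [sp_map, k2], tp_map _ _ _⟩
    rw [k4] at p1
    simp only [dshift, List.length_map, w]
    revert p1 p2
    generalize TD.c (t.map μ) = y1
    generalize TD.c ((c (t.length - 1)).map μ) = y2
    generalize TD.c ((tp (lk (t.length - 1) false) g2).map μ) = y3
    generalize n.bodd = y4
    revert y1 y2 y3 y4
    decide
  clear_value F
  let ψ : ℕ → Bool := fun l => xor (xor (F (sp (3 * l) (r l))) (F (tp (3 * l) (r l))))
    (eB l && F ((sp (3 * l) (r l)).take 1))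
  have hψ : Computable ψ := by unfold ψ; fun_prop
  have hV : TValid (fun l => xor (xor (w (eX l)) (w (eY l))) (eB l && w 0)) (dshift w TD) :=
    V1.shift (fun l _ => by simp)
  have hψ1 : ∀ l, Alive l → ψ l = xor (xor (w (eX l)) (w (eY l))) (eB l && w 0) := by
    intro l hl
    obtain ⟨h1, h2⟩ := hr1 l
    refine Eq.trans ?_ ((hV _ _ ((lb_spec (fun _ => false) l).2.2.1.2 hl) h1 h2).trans (lb_spec _ l).2.2.2)
    have h3 := h2.shU_sp h1
    have h4 := h2.shU_tp h1
    rw [sp_map] at h3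
    rw [tp_map] at h4
    have h5 := shU_take1 h3
    rw [← List.map_take] at h5
    simp only [ψ]
    rw [hF1 _ h3, hF1 _ h4, hF1 _ h5, par3, gW_lb, sp_map, tp_map, List.map_take]
  obtain ⟨U, -, hU1, -⟩ := exists_U (fun _ => false)
  obtain ⟨u, E, hu, hu1⟩ := reqM (w := fun x => xor (w x) (w 0 && U x)) hψ (fun l hl => by
    rw [hψ1 l hl, ← hU1 l hl]
    cases w (eX l) <;> cases w (eY l) <;> cases w 0 <;> cases U (eX l) <;> cases U (eY l) <;> rfl)
  let u' : ℕ → Bool := fun x => xor (u x) (xor (u 0) E)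
  have hu' : Computable u' := by unfold u'; fun_prop
  have hw2 : ∀ l, Alive l → false = xor (xor (xor (xor (w (eX l)) (w (eY l))) (eB l && w 0))
      (xor (u' (eX l)) (u' (eY l)))) (eB l && u' 0) := by
    intro l hl
    rw [← hψ1 l hl, hu1 l hl]
    simp only [u']
    cases u (eX l) <;> cases u (eY l) <;> cases u 0 <;> cases E <;> cases eB l <;> rfl
  clear_value u'
  have hG : TGen (fun l => xor (xor (w (eX l)) (w (eY l))) (eB l && w 0)) (dshift w TD) :=
    G1.shift (fun l _ => by simp)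
  obtain ⟨θ, f, h1, h2, -, h4, -⟩ := t_iso (hV.shift hw2) (hG.shift hw2) V1 G1
    hs Function.surjective_id [] (DPI_nil _ _)
  refine ⟨θ, f, fun a b => by simp only [r1]; rw [← h4]; rfl, h1 ?_ TD_comp, h2⟩
  exact ⟨Q, R, fun t => xor (F t) (u' (t.length - 1)), e1, e2, by fun_prop, e3, e5,
    fun t h5 => by simp only [hF1 t h5, dshift, List.length_map]⟩

/-- `a` is loopless and has colour `b` -/
def P1 (a : ℕ) (b : Bool) : Prop := TD.e a a = false ∧ TD.c [a] = b

theorem shU_one {e : ℕ → ℕ → Bool} {a : ℕ} (h : e a a = false) : ShU e [a] := by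
  refine ⟨by simp, fun i hi j hj => ?_⟩
  obtain rfl : i = 0 := by simpa using hi
  obtain rfl : j = 0 := by simpa using hj
  simpa [pu] using h

theorem exists_P1 (b : Bool) : ∃ a, P1 a b := by
  obtain ⟨w, h1, h2, h3, -⟩ := addW G1 V1 [] (by simp) 0 b
  obtain ⟨a, rfl⟩ := List.length_eq_one_iff.1 h1
  exact ⟨a, h2.noloop (by simp), h3⟩

theorem col_shift {f : ℕ → ℕ} (h : ∀ a b, TD.e a b = TD.e (f a) (f b)) {x : ℕ} {s t : List ℕ}
    (hs : ShU TD.e s) (ht : ShU TD.e t) (ls : s.length = x + 1) (lt : t.length = x + 1) :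
    xor (TD.c s) (TD.c (s.map f)) = xor (TD.c t) (TD.c (t.map f)) := by
  obtain ⟨w, g, g', h3, h4⟩ := link G1 V1 hs ht ls lt
  have p1 := gad_par V1 (h3.map h)
  have p2 := gad_par V1 (h4.map h)
  revert p1 p2
  generalize TD.c s = y1
  generalize TD.c t = y2
  generalize TD.c (s.map f) = y3
  generalize TD.c (t.map f) = y4
  generalize TD.c (w.map f) = y5
  revert y1 y2 y3 y4 y5
  decide

theorem e_of_r1 {f : ℕ → ℕ} (h : ∀ a b, r1 (f a) (f b) ↔ r1 a b) (a b : ℕ) :
    TD.e a b = TD.e (f a) (f b) := Bool.eq_iff_iff.2 (h a b).symm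

theorem aut_eps {f : ℕ → ℕ} (h : ∀ a b, r1 (f a) (f b) ↔ r1 a b) :
    ∃ ε : Bool, ∀ a b, P1 (f a) (xor b ε) ↔ P1 a b := by
  have h' := e_of_r1 h
  obtain ⟨a0, h0, -⟩ := exists_P1 false
  refine ⟨xor (TD.c [a0]) (TD.c [f a0]), fun a b => ?_⟩
  simp only [P1, ← h']
  refine and_congr_right (fun ha => ?_)
  have := col_shift h' (shU_one ha) (shU_one h0) (x := 0) rfl rfl
  simp only [List.map_cons, List.map_nil] at this
  rw [← this]
  cases TD.c [a] <;> cases TD.c [f a] <;> cases b <;> simp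

theorem exists_flip : ∃ θ : ℕ ≃ ℕ, (∀ a b, r1 (θ a) (θ b) ↔ r1 a b) ∧
    ∀ a b, P1 (θ a) (xor b true) ↔ P1 a b := by
  obtain ⟨U, hU0, hU, -⟩ := exists_U (fun _ => false)
  have hw : ∀ l, Alive l → false =
      xor (xor false (xor (!U (eX l)) (!U (eY l)))) (eB l && !U 0) := by
    intro l hl
    rw [← hU l hl, hU0]
    cases U (eX l) <;> cases U (eY l) <;> rfl
  obtain ⟨θ, -, -, -, -, h, hc⟩ := t_iso (V1.shift (w := fun x => !U x) hw)
    (G1.shift hw) V1 G1 Function.surjective_id Function.surjective_id [] (DPI_nil _ _)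
  have h' : ∀ a b, TD.e a b = TD.e (θ a) (θ b) := h
  refine ⟨θ, fun a b => by simp only [r1]; rw [← h'], fun a b => ?_⟩
  simp only [P1, ← h']
  refine and_congr_right (fun ha => ?_)
  have := hc [a] (shU_one ha)
  simp only [dshift, List.map_cons, List.map_nil, List.length_singleton, Nat.sub_self, hU0] at this
  rw [← this]
  cases TD.c [a] <;> cases b <;> simp

attribute [local irreducible] Computable shUb in
theorem no_flip {f : ℕ → ℕ} (hf : Computable f) (hs : Function.Surjective f)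
    (h0 : ∀ a b, r1 (f a) (f b) ↔ r1 a b) (a : ℕ) (b : Bool) : P1 (f a) b ↔ P1 a b := by
  have h := e_of_r1 h0
  obtain ⟨ε, hε⟩ := aut_eps h0
  cases ε
  · simpa using hε a b
  exfalso
  have c0 := TD_cc
  have ce := TD_ce
  have hU : Computable (shUb (fun x : ℕ × ℕ => TD.e x.1 x.2)) :=
    c_shUb (E := fun (_ : List ℕ) (x : ℕ × ℕ) => TD.e x.1 x.2)
      (ce.comp Computable.snd) CFP.id
  have hi : ∀ t, shUb (fun x : ℕ × ℕ => TD.e x.1 x.2) t = true ↔ ShU TD.e t :=
    fun t => by
      have := shUb_iff (E := fun x : ℕ × ℕ => TD.e x.1 x.2)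
        (e := TD.e) (μ := id) (fun _ _ => rfl) t
      rwa [List.map_id] at this
  have x1 : ∀ x, ∃ n, (((Denumerable.ofNat (List ℕ) n).length == x + 1) &&
      shUb (fun x : ℕ × ℕ => TD.e x.1 x.2) (Denumerable.ofNat (List ℕ) n)) = true := by
    intro x
    obtain ⟨w, h1, h2, -⟩ := addW G1 V1 [] (by simp) x false
    exact ⟨Encodable.encode w, by simp [hi, h1, h2]⟩
  let c : ℕ → List ℕ := fun x => Denumerable.ofNat (List ℕ) (Nat.find (x1 x))
  have hc : Computable c := CFP.ofNatList (CFP.find (p := fun x n =>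
    ((Denumerable.ofNat (List ℕ) n).length == x + 1) &&
      shUb (fun x : ℕ × ℕ => TD.e x.1 x.2) (Denumerable.ofNat (List ℕ) n))
    (by fun_prop) x1)
  have hc1 : ∀ x, (c x).length = x + 1 ∧ ShU TD.e (c x) := fun x => by
    have := Nat.find_spec (x1 x)
    rw [Bool.and_eq_true, hi, beq_iff_eq] at this
    exact this
  clear_value c
  let u : ℕ → Bool := fun x => xor (TD.c (c x)) (TD.c ((c x).map f))
  have hu : Computable u :=
    CFP.xor (c0.comp hc) (c0.comp (g := fun x : ℕ => (c x).map (fun a => f a)) (by fun_prop))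
  have key : ∀ x (t : List ℕ), t.length = x + 1 → ShU TD.e t →
      u x = xor (TD.c t) (TD.c (t.map f)) := fun x t h1 h2 =>
    col_shift h (hc1 x).2 h2 (hc1 x).1 h1
  clear_value u
  have hu0 : u 0 = true := by
    obtain ⟨a0, h1⟩ := exists_P1 false
    rw [key 0 [a0] rfl (shU_one h1.1), h1.2, List.map_cons, List.map_nil, ((hε a0 false).2 h1).2]
    rfl
  refine reqN hu (fun l hl => ?_)
  obtain ⟨s, h1, h2⟩ := exists_gad G1 V1 l
  obtain ⟨t, rfl⟩ := hs.list_map s
  obtain ⟨a1, a2, a3, a4⟩ := lb_spec (fun _ => false) l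
  have h4 := (V1 _ _ (a3.2 hl) h1 h2).trans a4
  rw [List.length_map] at h1
  have h5 : ShG TD.e t := by
    simpa using h2.tr (v := id) (e' := TD.e) (fun x _ y _ => (h x y).symm)
  have h8 := (V1 _ _ (a3.2 hl) h1 h5).trans a4
  have h9 := key 0 _ (by rw [List.length_take, len_sp h1]; omega) (shU_take1 (h5.shU_sp h1))
  rw [key _ _ (by rw [len_sp h1, a1]) (h5.shU_sp h1), key _ _ (by rw [len_tp h1, a2]) (h5.shU_tp h1)]
  rw [par3, gW_lb, sp_map, tp_map, ← List.map_take] at h4
  rw [par3, gW_lb] at h8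
  rw [hu0] at h9
  revert h4 h8 h9
  generalize TD.c ((sp (3 * l) t).map f) = y1
  generalize TD.c ((tp (3 * l) t).map f) = y2
  generalize TD.c (sp (3 * l) t) = y3
  generalize TD.c (tp (3 * l) t) = y4
  generalize TD.c (((sp (3 * l) t).take 1).map f) = y5
  generalize TD.c ((sp (3 * l) t).take 1) = y6
  generalize eB l = y7
  revert y1 y2 y3 y4 y5 y6 y7
  decide

theorem r1_common (a b : ℕ) : ∃ c, r1 a c ∧ r1 b c := addC G1 V1 a b

theorem olig1 (n : ℕ) : ∃ (ι : Type) (_ : Finite ι) (c : (Fin n → ℕ) → ι), ∀ v v', c v = c v' →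
    ∃ φ : ℕ ≃ ℕ, (∀ a b, r1 (φ a) (φ b) ↔ r1 a b) ∧ (∀ a b, P1 (φ a) b ↔ P1 a b) ∧
      φ ∘ v = v' := by
  have : Finite {t : List (Fin n) // t.length ≤ n} := (List.finite_length_le (Fin n) n).to_subtype
  refine ⟨(Fin n → Fin n → Prop) × (Fin n → Fin n → Bool) ×
      ({t : List (Fin n) // t.length ≤ n} → Bool),
    inferInstance, fun v => (fun i j => v i = v j, fun i j => TD.e (v i) (v j),
      fun t => TD.c (t.1.map v)), fun v v' h => ?_⟩
  obtain ⟨h1, h2⟩ := Prod.mk.inj h
  obtain ⟨h2, h2'⟩ := Prod.mk.inj h2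
  have hp : DPI TD TD
      (((List.finRange n).map (fun i => (v i, v' i))).map (Prod.map id id)) := by
    rw [Prod.map_id, List.map_id]
    refine ⟨fun x hx y hy => ?_, fun x hx y hy => ?_, fun t h3 h5 => ?_⟩
    · obtain ⟨i, -, rfl⟩ := List.mem_map.1 hx
      obtain ⟨j, -, rfl⟩ := List.mem_map.1 hy
      exact iff_of_eq (congrFun (congrFun h1 i) j)
    · obtain ⟨i, -, rfl⟩ := List.mem_map.1 hx
      obtain ⟨j, -, rfl⟩ := List.mem_map.1 hy
      exact congrFun (congrFun h2 i) j
    · have h6 := length_le_of h3 (nodup_of_getD h5.inj)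
      obtain ⟨s, -, rfl⟩ := exists_lift h3
      simp only [List.length_map, List.length_finRange] at h6
      simpa [List.map_map, Function.comp_def] using congrFun h2' ⟨s, h6⟩
  obtain ⟨θ, -, -, -, h3, h4, h5⟩ := t_iso V1 G1 V1 G1
    Function.surjective_id Function.surjective_id _ hp
  refine ⟨θ, fun a b => by simp only [r1]; rw [← h4], fun a b => ?_, funext (fun i => ?_)⟩
  · simp only [P1, ← h4]
    refine and_congr_right (fun ha => ?_)
    rw [h5 [a] (shU_one ha)]; rfl
  exact h3 (v i, v' i) (List.mem_map.2 ⟨i, List.mem_finRange i, rfl⟩)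

end Pool.Agent.P.MP_dc233e_lc.Cn
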