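import Pool.Agent.P.MP_dc233e_lc.Cn.C

/-!
Several copies of the twisted digraph, with one sink for each choice of a colour in each copy.
-/

namespace Pool.Agent.P.MP_dc233e_lc.Cn

open Pool.Agent.Lib.Helper43 Pool.Agent.P.MP_dc233e_lc.Dg

/-- a computable automorphism moves `x` to `y` -/
def Mv {A : Type} (r : A → A → Prop) (ν : ℕ → A) (x y : A) : Prop :=
  ∃ (φ : A ≃ A) (f : ℕ → ℕ), (∀ a b, r (φ a) (φ b) ↔ r a b) ∧ Computable f ∧
    (∀ n, φ (ν n) = ν (f n)) ∧ φ x = y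

/-- autostable, and the orbit of `v` splits into `n` computable orbits -/
def PP {A : Type} (r : A → A → Prop) (v : A) (n : ℕ) : Prop :=
  ∃ (ν w : ℕ → A), Con r ν ∧ (∀ μ, Con r μ → Aeq r μ ν) ∧
    (∀ i, ∃ φ : A ≃ A, (∀ a b, r (φ a) (φ b) ↔ r a b) ∧ φ v = w i) ∧
    (∀ φ : A ≃ A, (∀ a b, r (φ a) (φ b) ↔ r a b) → ∃ i < n, Mv r ν (φ v) (w i)) ∧
    ∀ i < n, ∀ j < n, Mv r ν (w i) (w j) → i = j

attribute [local irreducible] Computable in
theorem patch {A : Type} {μ ν : ℕ → A} {Q : ℕ × ℕ → Bool} (hQ : Computable Q)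
    (hQ1 : ∀ a b, Q (a, b) = true ↔ μ a = μ b) (hν : Function.Surjective ν) (Φ : A → A)
    (S : List A) {f : ℕ → ℕ} (hf : Computable f) (h : ∀ n, μ n ∉ S → Φ (μ n) = ν (f n)) :
    ∃ g, Computable g ∧ ∀ n, Φ (μ n) = ν (g n) := by
  induction S generalizing f with
  | nil => exact ⟨f, hf, fun n => h n (by simp)⟩
  | cons s S ih =>
    by_cases hs : ∃ m, μ m = s
    · obtain ⟨m, rfl⟩ := hs
      obtain ⟨k, hk⟩ := hν (Φ (μ m))
      refine ih (f := fun n => bif Q (n, m) then k else f n) (by fun_prop) (fun n hn => ?_)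
      cases e : Q (n, m)
      · refine h n (fun h1 => ?_)
        rcases List.mem_cons.1 h1 with h1 | h1
        · rw [(hQ1 _ _).2 h1] at e; simp at e
        · exact hn h1
      · rw [(hQ1 _ _).1 e, ← hk]; rfl
    · refine ih hf (fun n hn => h n (fun h1 => ?_))
      rcases List.mem_cons.1 h1 with h1 | h1
      · exact hs ⟨n, h1⟩
      · exact hn h1

def rV (k : ℕ) (x y : Fin k × ℕ) : Prop := x.1 = y.1 ∧ r1 x.2 y.2

theorem rV_comp {k : ℕ} {x y : Fin k × ℕ} : x.1 = y.1 ↔ ∃ z, rV k x z ∧ rV k y z := by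
  refine ⟨fun h => ?_, fun ⟨z, h1, h2⟩ => h1.1.trans h2.1.symm⟩
  obtain ⟨c, h1, h2⟩ := r1_common x.2 y.2
  exact ⟨(x.1, c), ⟨rfl, h1⟩, ⟨h.symm, h2⟩⟩

def SV (K : ℕ) (j : ℕ) : Fin (K + 1) × ℕ :=
  (⟨j % (K + 1), Nat.mod_lt _ (Nat.succ_pos _)⟩, j / (K + 1))

theorem SV_eq (K : ℕ) (i : Fin (K + 1)) (m : ℕ) : SV K ((K + 1) * m + i) = (i, m) :=
  SU_eq K (fun _ => id) (fun _ => false) i m

attribute [local irreducible] Computable in
theorem classifyV (K : ℕ) {μ : ℕ → Fin (K + 1) × ℕ} (h : Con (rV (K + 1)) μ) :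
    ∃ (φ : Fin (K + 1) → ℕ ≃ ℕ) (f : ℕ → ℕ), (∀ i a b, r1 (φ i a) (φ i b) ↔ r1 a b) ∧
      Computable f ∧ ∀ j, ((μ j).1, φ (μ j).1 (μ j).2) = SV K (f j) := by
  obtain ⟨hs, Q, E, e1, e2, e3, e4⟩ := h
  choose r hr using fun i : Fin (K + 1) => hs (i, 0)
  let R : ℕ → ℕ := fun i => r ⟨i % (K + 1), Nat.mod_lt _ (Nat.succ_pos _)⟩
  have hR : Computable R := c_fin (f := fun i (_ : ℕ) => R i) (c := fun i => i % (K + 1))
    (fun i _ => CFP.const _) (by fun_prop) (fun _ => Nat.mod_lt _ (Nat.succ_pos _)) |>.of_eq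
      (fun a => by simp [R])
  have hR1 : ∀ i, ((μ (R i)).1 : ℕ) = i % (K + 1) := fun i => by simp [R, hr]
  clear_value R
  have x1 : ∀ j, ∃ n : ℕ, (E (j, n.unpair.2) && E (R n.unpair.1, n.unpair.2)) = true := by
    intro j
    obtain ⟨z, h1, h2⟩ := (rV_comp (x := μ j) (y := μ (R (μ j).1))).1
      (Fin.ext (by rw [hR1, Nat.mod_eq_of_lt (μ j).1.2]))
    obtain ⟨c, rfl⟩ := hs z
    exact ⟨Nat.pair (μ j).1 c, by simp [e4, h1, h2]⟩
  let cp : ℕ → ℕ := fun j => (Nat.find (x1 j)).unpair.1 % (K + 1)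
  have hcp : Computable cp := CFP.mod (CFP.fst (CFP.unpair (CFP.find
    (p := fun j n => E (j, n.unpair.2) && E (R n.unpair.1, n.unpair.2)) (by fun_prop) x1)))
    (CFP.const _)
  have hcp1 : ∀ j, cp j = (μ j).1 := fun j => by
    have := Nat.find_spec (x1 j)
    rw [Bool.and_eq_true, e4, e4] at this
    rw [rV_comp.2 ⟨_, this⟩, hR1]
  clear_value cp
  have h1 : ∀ i : Fin (K + 1), ∀ j, (μ (if cp j = i then j else r i)).1 = i := by
    intro i j
    split_ifs with h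
    · exact Fin.ext (by rw [← hcp1, h])
    · rw [hr]
  have h2 : ∀ i : Fin (K + 1), Con r1 (fun j => (μ (if cp j = i then j else r i)).2) := by
    intro i
    have hc : Computable (fun j => if cp j = i then j else r i) :=
      CFP.ite (CFP.decEq hcp (CFP.const _)) CFP.id (CFP.const _)
    refine ⟨fun a => ?_, fun x => Q (if cp x.1 = i then x.1 else r i, if cp x.2 = i then x.2 else r i),
      fun x => E (if cp x.1 = i then x.1 else r i, if cp x.2 = i then x.2 else r i),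
      e1.comp ((hc.comp Computable.fst).pair (hc.comp Computable.snd)),
      e2.comp ((hc.comp Computable.fst).pair (hc.comp Computable.snd)), fun a b => ?_,
      fun a b => ?_⟩
    · obtain ⟨j, hj⟩ := hs (i, a)
      exact ⟨j, by simp [hcp1, hj]⟩
    · rw [e3, Prod.ext_iff, h1, h1]; simp
    · rw [e4, rV, h1, h1]; simp
  choose φ f h3 h4 h5 using fun i => classify (h2 i)
  let fin : ℕ → Fin (K + 1) := fun i => ⟨i % (K + 1), Nat.mod_lt _ (Nat.succ_pos _)⟩
  have hfin : ∀ i : Fin (K + 1), fin i = i := fun i => Fin.ext (Nat.mod_eq_of_lt i.2)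
  refine ⟨φ, fun j => (K + 1) * f (fin (cp j)) j + cp j,
    h3, CFP.add (CFP.mul (CFP.const _) (c_fin (f := fun i j => f (fin i) j)
      (fun i _ => h4 _) hcp (fun j => by rw [hcp1]; exact (μ j).1.2))) hcp, fun j => ?_⟩
  simp only [hcp1]
  have h6 := h5 (μ j).1 j
  simp only [if_pos (hcp1 j), id] at h6
  rw [SV_eq, hfin, ← h6]

abbrev AK (k : ℕ) : Type := (Fin k × ℕ) ⊕ (Fin k → Bool)

def rK (k : ℕ) : AK k → AK k → Prop
  | .inl x, .inl y => rV k x y
  | .inl x, .inr β => P1 x.2 (β x.1)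
  | .inr _, _ => False

def nK (K : ℕ) (j : ℕ) : AK (K + 1) :=
  if j % 2 = 0 then .inl (SV K (j / 2)) else .inr (fun i => (j / 2).testBit i)

theorem nK_even (K m : ℕ) : nK K (2 * m) = .inl (SV K m) := by simp [nK]

theorem nK_surj (K : ℕ) : Function.Surjective (nK K) := by
  rintro (⟨i, m⟩ | β)
  · exact ⟨2 * ((K + 1) * m + i), by rw [nK_even, SV_eq]⟩
  · refine ⟨2 * Nat.ofBits β + 1, ?_⟩
    rw [nK, if_neg (by omega), (by omega : (2 * Nat.ofBits β + 1) / 2 = Nat.ofBits β)]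
    congr 1
    funext i
    rw [Nat.testBit_ofBits_lt _ _ i.2]

theorem SV_inj (K : ℕ) {a b : ℕ} : SV K a = SV K b ↔ a = b := by
  refine ⟨fun h => ?_, fun h => by rw [h]⟩
  simp only [SV, Prod.mk.injEq, Fin.mk.injEq] at h
  rw [← Nat.div_add_mod a (K + 1), ← Nat.div_add_mod b (K + 1), h.1, h.2]

attribute [local irreducible] Computable in
theorem con_nK (K : ℕ) : Con (rK (K + 1)) (nK K) := by
  have ce := TD_ce
  have cc := TD_cc
  refine ⟨nK_surj K, fun x => (x.1 % 2 == x.2 % 2) && (((x.1 % 2 == 0) && (x.1 / 2 == x.2 / 2)) ||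
      ((x.1 % 2 == 1) && (List.range (K + 1)).all
        (fun i => (x.1 / 2).testBit i == (x.2 / 2).testBit i))),
    fun x => (x.1 % 2 == 0) && (((x.2 % 2 == 0) && ((x.1 / 2 % (K + 1) == x.2 / 2 % (K + 1)) &&
      TD.e (x.1 / 2 / (K + 1)) (x.2 / 2 / (K + 1)))) ||
      ((x.2 % 2 == 1) && (!TD.e (x.1 / 2 / (K + 1)) (x.1 / 2 / (K + 1)) &&
        (TD.c [x.1 / 2 / (K + 1)] == (x.2 / 2).testBit (x.1 / 2 % (K + 1)))))),
    by fun_prop, ?_, fun a b => ?_, fun a b => ?_⟩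
  · have h1 : Computable (fun x : ℕ × ℕ => TD.e (x.1 / 2 / (K + 1)) (x.2 / 2 / (K + 1))) :=
      ce.comp (g := fun x : ℕ × ℕ => (x.1 / 2 / (K + 1), x.2 / 2 / (K + 1))) (by fun_prop)
    have h2 : Computable (fun x : ℕ × ℕ => TD.e (x.1 / 2 / (K + 1)) (x.1 / 2 / (K + 1))) :=
      ce.comp (g := fun x : ℕ × ℕ => (x.1 / 2 / (K + 1), x.1 / 2 / (K + 1))) (by fun_prop)
    have h3 : Computable (fun x : ℕ × ℕ => TD.c [x.1 / 2 / (K + 1)]) := cc.comp (by fun_prop)
    exact CFP.and (by fun_prop) (CFP.or (CFP.and (by fun_prop) (CFP.and (by fun_prop) h1))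
      (CFP.and (by fun_prop) (CFP.and (CFP.not h2) (CFP.beq h3 (by fun_prop)))))
  · rcases Nat.mod_two_eq_zero_or_one a with h | h <;>
      rcases Nat.mod_two_eq_zero_or_one b with h' | h' <;> simp [nK, h, h', SV_inj, funext_iff]
    exact ⟨fun h i => h i (Nat.lt_succ_iff.1 i.2), fun h i hi => h ⟨i, Nat.lt_succ_iff.2 hi⟩⟩
  · rcases Nat.mod_two_eq_zero_or_one a with h | h <;>
      rcases Nat.mod_two_eq_zero_or_one b with h' | h' <;>
        simp [nK, h, h', rK, rV, r1, P1, SV]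

def xorE {k : ℕ} (π : Fin k ≃ Fin k) (ε : Fin k → Bool) : (Fin k → Bool) ≃ (Fin k → Bool) where
  toFun β := fun i => xor (β (π.symm i)) (ε (π.symm i))
  invFun β := fun i => xor (β (π i)) (ε i)
  left_inv β := by funext i; simp
  right_inv β := by funext i; simp

def extE {k : ℕ} (π : Fin k ≃ Fin k) (φ : Fin k → ℕ ≃ ℕ) (ε : Fin k → Bool) : AK k ≃ AK k :=
  ((Equiv.prodCongrRight φ).trans (π.prodCongr (Equiv.refl ℕ))).sumCongr (xorE π ε)

theorem extE_inl {k : ℕ} (π : Fin k ≃ Fin k) (φ : Fin k → ℕ ≃ ℕ) (ε : Fin k → Bool)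
    (x : Fin k × ℕ) : extE π φ ε (.inl x) = .inl (π x.1, φ x.1 x.2) := rfl

theorem extE_inr {k : ℕ} (π : Fin k ≃ Fin k) (φ : Fin k → ℕ ≃ ℕ) (ε β : Fin k → Bool) :
    extE π φ ε (.inr β) = .inr (fun i => xor (β (π.symm i)) (ε (π.symm i))) := rfl

theorem extE_aut {k : ℕ} (π : Fin k ≃ Fin k) {φ : Fin k → ℕ ≃ ℕ} {ε : Fin k → Bool}
    (h1 : ∀ i a b, r1 (φ i a) (φ i b) ↔ r1 a b)
    (h2 : ∀ i a b, P1 (φ i a) (xor b (ε i)) ↔ P1 a b) (x y : AK k) :
    rK k (extE π φ ε x) (extE π φ ε y) ↔ rK k x y := by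
  rcases x with ⟨i, a⟩ | β <;> rcases y with ⟨j, b⟩ | β'
  · simp only [extE_inl, rK, rV, π.injective.eq_iff]
    exact and_congr_right (fun h => by rw [h, h1])
  · simp only [extE_inl, extE_inr, rK, Equiv.symm_apply_apply, h2]
  · simp only [extE_inl, extE_inr, rK]
  · simp only [extE_inr, rK]

theorem oligK (k : ℕ) : Olig (rK k) := by
  intro n
  obtain ⟨ι, hι, c, hc⟩ := olig1 n
  let tg : AK k → Fin k ⊕ (Fin k → Bool) := Sum.map Prod.fst id
  let c1 : AK k → ℕ := Sum.elim Prod.snd (fun _ => 0)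
  refine ⟨(Fin n → Fin k ⊕ (Fin k → Bool)) × ι, inferInstance, fun v => (tg ∘ v, c (c1 ∘ v)),
    fun v v' h => ?_⟩
  obtain ⟨h1, h2⟩ := Prod.mk.inj h
  obtain ⟨φ, h3, h4, h5⟩ := hc _ _ h2
  refine ⟨extE (Equiv.refl _) (fun _ => φ) (fun _ => false),
    extE_aut _ (fun _ => h3) (fun _ a b => by simpa using h4 a b), funext (fun i => ?_)⟩
  have a1 := congrFun h1 i
  have a2 := congrFun h5 i
  simp only [Function.comp] at a1 a2 ⊢
  revert a1 a2
  rcases v i with ⟨j, a⟩ | β <;> rcases v' i with ⟨j', a'⟩ | β' <;>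
    simp +contextual [tg, c1, extE_inl, extE_inr]

attribute [local irreducible] Computable in
theorem autoK (K : ℕ) {μ : ℕ → AK (K + 1)} (h : Con (rK (K + 1)) μ) :
    Aeq (rK (K + 1)) μ (nK K) := by
  classical
  obtain ⟨hs, Q, E, e1, e2, e3, e4⟩ := h
  let S : List (AK (K + 1)) := (Finset.univ.toList : List (Fin (K + 1) → Bool)).map Sum.inr
  have hS : ∀ β, Sum.inr β ∈ S := fun β => List.mem_map_of_mem (by simp)
  obtain ⟨g, hg, hg1⟩ := patch e1 e3 hs (Sum.elim Sum.inl (fun _ => Sum.inl (0, 0))) S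
    (f := id) CFP.id (fun n hn => by
      rcases e : μ n with x | β
      · simp [e]
      · exact absurd (e ▸ hS β) hn)
  let μ' : ℕ → Fin (K + 1) × ℕ := fun n => Sum.elim id (fun _ => (0, 0)) (μ n)
  have h1 : ∀ n, μ (g n) = .inl (μ' n) := fun n => by
    rw [← hg1]; simp only [μ']
    rcases μ n with x | β <;> rfl
  have h2 : Con (rV (K + 1)) μ' := by
    refine ⟨fun x => ?_, fun x => Q (g x.1, g x.2), fun x => E (g x.1, g x.2), by fun_prop,
      by fun_prop, fun a b => by simp [e3, h1], fun a b => by simp only [e4, h1, rK]⟩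
    obtain ⟨n, hn⟩ := hs (.inl x)
    exact ⟨n, by simp [μ', hn]⟩
  obtain ⟨φ, f, h3, h4, h5⟩ := classifyV K h2
  choose ε hε using fun i => aut_eps (h3 i)
  obtain ⟨f', h6, h7⟩ := patch e1 e3 (nK_surj K) (extE (Equiv.refl _) φ ε) S
    (f := fun n => 2 * f n) (by fun_prop) (fun n hn => by
      rw [nK_even, ← h5]
      rcases e : μ n with x | β
      · simp [μ', e, extE_inl]
      · exact absurd (e ▸ hS β) hn)
  exact ⟨_, f', extE_aut _ h3 hε, h6, h7⟩

theorem sink_iff {k : ℕ} (x : AK k) : (∃ β, x = .inr β) ↔ ∀ y, ¬ rK k x y := by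
  rcases x with ⟨i, a⟩ | β
  · obtain ⟨c, hc, -⟩ := r1_common a a
    simp only [reduceCtorEq, exists_false, false_iff, not_forall, not_not]
    exact ⟨.inl (i, c), rfl, hc⟩
  · simp [rK]

theorem aut_sink {k : ℕ} {φ : AK k ≃ AK k} (h : ∀ a b, rK k (φ a) (φ b) ↔ rK k a b) (x : AK k) :
    (∃ β, φ x = .inr β) ↔ ∃ β, x = .inr β := by
  rw [sink_iff, sink_iff, φ.surjective.forall]
  simp only [h]

def cntF {k : ℕ} (β : Fin k → Bool) : ℕ := Fintype.card {i : Fin k // β i = true}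

attribute [local irreducible] Computable in
theorem mv_of_cnt (K : ℕ) {β β' : Fin (K + 1) → Bool} (h : cntF β = cntF β') :
    Mv (rK (K + 1)) (nK K) (.inr β) (.inr β') := by
  classical
  have h1 : ∀ c : Bool, Fintype.card {i : Fin (K + 1) // β i = c} =
      Fintype.card {i : Fin (K + 1) // β' i = c} := by
    intro c
    cases c
    · have a1 := Fintype.card_subtype_compl (fun i : Fin (K + 1) => β i = true)
      have a2 := Fintype.card_subtype_compl (fun i : Fin (K + 1) => β' i = true)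
      simp only [Bool.not_eq_true] at a1 a2
      unfold cntF at h
      rw [a1, a2, h]
    · exact h
  let π : Fin (K + 1) ≃ Fin (K + 1) := Equiv.ofFiberEquiv (f := β) (g := β')
    (fun c => Fintype.equivOfCardEq (h1 c))
  have hπ : ∀ i, β' (π i) = β i := fun i => Equiv.ofFiberEquiv_map (f := β) (g := β') _ i
  clear_value π
  let fin : ℕ → Fin (K + 1) := fun i => ⟨i % (K + 1), Nat.mod_lt _ (Nat.succ_pos _)⟩
  obtain ⟨-, Q, -, e1, -, e3, -⟩ := con_nK K
  let S : List (AK (K + 1)) := (Finset.univ.toList : List (Fin (K + 1) → Bool)).map Sum.inr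
  have hS : ∀ β, Sum.inr β ∈ S := fun β => List.mem_map_of_mem (by simp)
  have hc : Computable (fun j : ℕ => (π (fin j) : ℕ)) :=
    (c_fin (f := fun i (_ : ℕ) => (π (fin i) : ℕ))
      (c := fun i => i % (K + 1)) (fun i _ => CFP.const _) (by fun_prop)
      (fun _ => Nat.mod_lt _ (Nat.succ_pos _))).of_eq (fun a => by simp [fin])
  obtain ⟨f', h6, h7⟩ := patch e1 e3 (nK_surj K)
    (extE π (fun _ => Equiv.refl _) (fun _ => false)) S
    (f := fun n => 2 * ((K + 1) * (n / 2 / (K + 1)) + π (fin (n / 2))))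
    (CFP.mul (CFP.const _) (CFP.add (by fun_prop) (hc.comp (by fun_prop)))) (fun n hn => by
      rw [nK_even, SV_eq]
      unfold nK at hn ⊢
      split_ifs at hn ⊢
      · rfl
      · exact absurd (hS _) hn)
  refine ⟨_, f', extE_aut _ (fun _ _ _ => Iff.rfl) (fun _ _ _ => by simp), h6, h7, ?_⟩
  rw [extE_inr]
  congr 1
  funext i
  simp [← hπ]

attribute [local irreducible] Computable in
theorem cnt_of_mv (K : ℕ) {β β' : Fin (K + 1) → Bool}
    (h : Mv (rK (K + 1)) (nK K) (.inr β) (.inr β')) : cntF β = cntF β' := by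
  obtain ⟨Φ, f, h0, h2, h3, h9⟩ := h
  have k1 : ∀ x, ∃ y, Φ (.inl x) = .inl y := by
    intro x
    rcases e : Φ (.inl x) with y | γ
    · exact ⟨y, rfl⟩
    · simpa using (aut_sink h0 _).1 ⟨γ, e⟩
  choose φ hφ using k1
  have k2 : Function.Surjective φ := by
    intro y
    obtain ⟨x | γ, e⟩ := Φ.surjective (.inl y)
    · exact ⟨x, by simpa [hφ] using e⟩
    · obtain ⟨γ', e'⟩ := (aut_sink h0 _).2 ⟨γ, rfl⟩
      simp [e'] at e
  have h1 : ∀ x y, rV (K + 1) (φ x) (φ y) ↔ rV (K + 1) x y := fun x y => by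
    have := h0 (.inl x) (.inl y)
    rwa [hφ, hφ] at this
  have h4 : ∀ x y, (φ x).1 = (φ y).1 ↔ x.1 = y.1 := by
    intro x y
    rw [rV_comp, rV_comp]
    refine ⟨fun ⟨z, a1, a2⟩ => ?_, fun ⟨z, a1, a2⟩ => ⟨φ z, (h1 _ _).2 a1, (h1 _ _).2 a2⟩⟩
    obtain ⟨z, rfl⟩ := k2 z
    exact ⟨z, (h1 _ _).1 a1, (h1 _ _).1 a2⟩
  let π : Fin (K + 1) → Fin (K + 1) := fun i => (φ (i, 0)).1
  have hπ : ∀ i a, (φ (i, a)).1 = π i := fun i a => (h4 _ _).2 rfl
  have hinj : Function.Injective π := fun i j h => (h4 _ _).1 h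
  clear_value π
  have h5 : ∀ i : Fin (K + 1), β i = β' (π i) := by
    intro i
    have hb : Function.Surjective (fun a => (φ (i, a)).2) := by
      intro c
      obtain ⟨⟨j, a⟩, h⟩ := k2 (π i, c)
      obtain rfl : j = i := hinj (by rw [← hπ j a, h])
      exact ⟨a, by simp [h]⟩
    have hc : Computable (fun a => (φ (i, a)).2) := by
      refine Computable.of_eq (f := fun a => f (2 * ((K + 1) * a + i)) / 2 / (K + 1))
        (by fun_prop) (fun a => ?_)
      have h6 := h3 (2 * ((K + 1) * a + i))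
      rw [nK_even, SV_eq, hφ, nK] at h6
      split_ifs at h6
      rw [Sum.inl.inj h6]
      rfl
    have h6 := no_flip hc hb (fun a b => by simpa [rV, hπ] using h1 (i, a) (i, b))
    obtain ⟨a, ha⟩ := exists_P1 (β i)
    have h7 := (h0 (.inl (i, a)) (.inr β)).2 ha
    rw [hφ, h9] at h7
    have h8 := (h6 a _).1 h7
    rw [← ha.2, h8.2, hπ]
  exact Fintype.card_congr ((Equiv.ofBijective π (Finite.injective_iff_bijective.1 hinj)).subtypeEquiv
    (fun i => by rw [h5]; rfl))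

theorem ppK (K : ℕ) : PP (rK (K + 1)) (.inr (fun _ => false)) (K + 2) := by
  have h0 : ∀ m ≤ K + 1, cntF (fun i : Fin (K + 1) => decide (i.1 < m)) = m := cnt_lt (K + 1)
  refine ⟨nK K, fun m => .inr (fun i => decide (i.1 < m)), con_nK K, fun μ => autoK K,
    fun m => ?_, fun φ hφ => ?_, fun i hi j hj h => ?_⟩
  · obtain ⟨θ, h1, h2⟩ := exists_flip
    refine ⟨extE (Equiv.refl _) (fun i => if i.1 < m then θ else Equiv.refl _)
      (fun i => decide (i.1 < m)), extE_aut _ (fun i a b => ?_) (fun i a b => ?_), ?_⟩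
    · split_ifs
      · exact h1 a b
      · rfl
    · split_ifs with h
      · simpa [h] using h2 a b
      · simp [h]
    · rw [extE_inr]
      congr 1
      funext i
      rw [Bool.false_xor]
      rfl
  · obtain ⟨β, hβ⟩ := (aut_sink hφ _).2 ⟨_, rfl⟩
    have h5 : cntF β ≤ K + 1 := (Fintype.card_subtype_le _).trans (by simp)
    exact ⟨cntF β, by omega, hβ ▸ mv_of_cnt K (h0 _ h5).symm⟩
  · have := cnt_of_mv K h
    rwa [h0 _ (by omega), h0 _ (by omega)] at this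

end Pool.Agent.P.MP_dc233e_lc.Cn
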