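import Pool.Agent.P.MP_dc233e_lc.Dg.Defs

/-!
Definitions used in the statement: the expansion `(G, v)` of a simple graph by one constant.
-/

namespace Pool.Agent.P.MP_dc233e_lc.Cn

open FirstOrder Pool.Agent.P.MP_dc233e_lc.Dg

/-- The values of the closed terms: number `0` is the constant `c` (value `v`) and number `i + 1`
is the name `c_i` (value `ν i`). -/
def pt {V : Type} (v : V) (ν : ℕ → V) : ℕ → V
  | 0 => v
  | i + 1 => ν i

/-- The atomic diagram of `(G, v)` under `ν`. -/
def ADc {V : Type} (G : SimpleGraph V) (v : V) (ν : ℕ → V) : Set (Bool × Bool × ℕ × ℕ) :=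
  AD G (pt v ν)

/-- `ν` is a constructivization of `(G, v)`. -/
def IsConstrC {V : Type} (G : SimpleGraph V) (v : V) (ν : ℕ → V) : Prop :=
  Function.Surjective ν ∧ ComputablePred (fun φ => φ ∈ ADc G v ν)

/-- `ν` and `μ` are autoequivalent as constructivizations of `(G, v)`. -/
def AutoeqC {V : Type} (G : SimpleGraph V) (v : V) (ν μ : ℕ → V) : Prop :=
  ∃ (φ : G ≃g G) (f : ℕ → ℕ), φ v = v ∧ Computable f ∧ ∀ n, φ (ν n) = μ (f n)

/-- The dimension of `(G, v)`. -/
noncomputable def dimC {V : Type} (G : SimpleGraph V) (v : V) : ℕ∞ :=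
  ⨆ (S : Set (ℕ → V))
    (_ : (∀ ν ∈ S, IsConstrC G v ν) ∧ S.Pairwise (fun ν μ => ¬ AutoeqC G v ν μ)), S.encard

/-- `(G, v)` is effectively infinite. -/
def EffInfC {V : Type} (G : SimpleGraph V) (v : V) : Prop :=
  ∃ F : Nat.Partrec.Code →. Nat.Partrec.Code, Partrec F ∧
    ∀ (c : Nat.Partrec.Code) (νs : ℕ → ℕ → V), (∀ i, IsConstrC G v (νs i)) →
      IsIndex c {p : ℕ × (Bool × Bool × ℕ × ℕ) | p.2 ∈ ADc G v (νs p.1)} →
      ∃ c' ∈ F c, ∃ ν : ℕ → V, IsConstrC G v ν ∧ IsIndex c' (ADc G v ν) ∧
        ∀ i, ¬ AutoeqC G v ν (νs i)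

/-- `(G, v)` as a structure for the language of graphs with one constant symbol. -/
@[reducible] def ptStr {V : Type} (G : SimpleGraph V) (v : V) :
    (Language.graph.withConstants Unit).Structure V :=
  @Language.withConstantsStructure Language.graph V G.structure Unit
    (Language.constantsOn.structure (fun _ => v))

/-- `(G, v)` is a countable model of a complete theory with infinite models, all of whose
countable models are isomorphic. -/
def CountCatC {V : Type} (G : SimpleGraph V) (v : V) : Prop :=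
  Countable V ∧ ∃ T : (Language.graph.withConstants Unit).Theory, T.IsComplete ∧
    @Language.Theory.Model _ V (ptStr G v) T ∧
    (∃ M : Language.Theory.ModelType.{0, 0, 0} T, Infinite M) ∧
    ∀ M N : Language.Theory.ModelType.{0, 0, 0} T, Countable M → Countable N →
      Nonempty (M ≃[Language.graph.withConstants Unit] N)

end Pool.Agent.P.MP_dc233e_lc.Cn
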