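import Pool.Agent.P.MP_dc233e_lc.Cn.D
import Pool.Agent.P.MP_dc233e_lc.Cn.Defs

/-!
Transfer to simple graphs and to the expansion by one constant.
-/

namespace Pool.Agent.P.MP_dc233e_lc.Cn

open Pool.Agent.Lib.Helper43 Pool.Agent.P.MP_dc233e_lc.Dg FirstOrder FirstOrder.Language

section
variable {L : FirstOrder.Language.{0, 0}} {A N : Type} [L.Structure A] [L.Structure N]

theorem iso_of_oligo' [Countable A] [Countable N] [Nonempty A] [Nonempty N]
    (h : Oligo L A) [N ⊨ L.completeTheory A] : Nonempty (A ≃[L] N) := by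
  classical
  obtain ⟨μ, hμ⟩ := exists_surjective_nat A
  obtain ⟨ν, hν⟩ := exists_surjective_nat N
  let PI : List (A × N) → Prop := fun p => SameTp L (Prod.fst ∘ tup p) (Prod.snd ∘ tup p)
  have hcons : ∀ p a b, PI ((a, b) :: p) ↔
      SameTp L (Fin.snoc (α := fun _ => A) (Prod.fst ∘ tup p) a)
        (Fin.snoc (α := fun _ => N) (Prod.snd ∘ tup p) b) := by
    intro p a b
    simp only [PI, tup]
    rw [Fin.comp_snoc, Fin.comp_snoc]
  obtain ⟨θ, -, -, -, -, hθ⟩ := bnf hμ hν PI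
    (fun p hp x hx y hy => by
      obtain ⟨i, rfl⟩ := mem_tup hx
      obtain ⟨j, rfl⟩ := mem_tup hy
      simpa using hp (Term.bdEqual (Term.var (Sum.inr i)) (Term.var (Sum.inr j))))
    (fun p hp a => by
      obtain ⟨ι, hι, χ, h1, h2⟩ := exists_isolating h (p.length + 1)
      obtain ⟨i, hi⟩ := h1 (Fin.snoc (α := fun _ => A) (Prod.fst ∘ tup p) a)
      obtain ⟨b, hb⟩ := BoundedFormula.realize_ex.1
        ((hp (χ i).ex).1 (BoundedFormula.realize_ex.2 ⟨a, hi⟩))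
      exact ⟨b, (hcons p a b).2 (sameTp_of_isolating (h2 i) hi hb)⟩)
    (fun p hp b => by
      obtain ⟨ι, hι, χ, h1, h2⟩ := exists_isolating h (p.length + 1)
      obtain ⟨i, hi⟩ := BoundedFormula.realize_iSup.1 (transfer_alls (A := A) (N := N)
        (BoundedFormula.iSup χ) (fun v => BoundedFormula.realize_iSup.2 (h1 v))
        (Fin.snoc (α := fun _ => N) (Prod.snd ∘ tup p) b))
      obtain ⟨a, ha⟩ := BoundedFormula.realize_ex.1
        ((hp (χ i).ex).2 (BoundedFormula.realize_ex.2 ⟨b, hi⟩))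
      exact ⟨a, (hcons p a b).2 (sameTp_of_isolating (h2 i) ha hi)⟩)
    (fun q => decide (PI (q.map (Prod.map μ ν)))) (fun q => by simp) []
    (by
      have h0 : ∀ (v : Fin 0 → A) (w : Fin 0 → N), SameTp L v w := by
        intro v w φ
        have := realize_iff_of_model_completeTheory A N φ
        rw [Subsingleton.elim v default, Subsingleton.elim w default]
        exact this.symm
      exact decide_eq_true (h0 _ _))
  refine ⟨⟨θ, fun {n} f x => ?_, fun {n} r x => ?_⟩⟩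
  · obtain ⟨p, hp, hx⟩ := hθ (Structure.funMap f x :: List.ofFn x)
    have : ∀ i, ∃ j, tup p j = (x i, θ (x i)) := fun i => mem_tup (hx _ (by simp))
    choose idx hidx using this
    obtain ⟨j, hj⟩ := mem_tup (hx (Structure.funMap f x) (by simp))
    have := hp (Term.bdEqual (Term.var (Sum.inr j))
      (Term.func f (fun i => Term.var (Sum.inr (idx i)))))
    simp only [BoundedFormula.realize_bdEqual, Term.realize, Sum.elim_inr, Function.comp,
      hidx, hj, true_iff] at this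
    exact this
  obtain ⟨p, hp, hx⟩ := hθ (List.ofFn x)
  have : ∀ i, ∃ j, tup p j = (x i, θ (x i)) := fun i => mem_tup (hx _ (by simp))
  choose idx hidx using this
  have := hp (r.boundedFormula (fun i => Term.var (Sum.inr (idx i))))
  simp only [BoundedFormula.realize_rel, Term.realize_var, Sum.elim_inr, Function.comp,
    hidx] at this
  exact this.symm

end

variable {A V : Type}

attribute [local irreducible] Computable in
theorem mv_FV {r : A → A → Prop} {ν : ℕ → A} {x y : A} (h : Mv r ν x y) :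
    Mv (aj r) (FV ν) (.v x) (.v y) := by
  obtain ⟨φ, f, h1, h2, h3, h4⟩ := h
  refine ⟨Vx.equiv φ, fun n => if n % 4 = 0 then n else if n % 4 = 1 then 4 * f (n / 4) + 1
    else 4 * Nat.pair (f (n / 4).unpair.1) (f (n / 4).unpair.2) + n % 4, aj_equiv h1,
    CFP.ite (CFP.decEq (by fun_prop) (CFP.const _)) CFP.id
      (CFP.ite (CFP.decEq (by fun_prop) (CFP.const _)) (by fun_prop) (by fun_prop)), fun n => ?_,
    by rw [← h4]; rfl⟩
  have k : ∀ a j, j < 4 → (4 * a + j) % 4 = j ∧ (4 * a + j) / 4 = a := fun a j h => by omega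
  rcases mod4 n with h | h | h | h <;> simp [FV, h, k, Vx.equiv, Vx.map, h3]

attribute [local irreducible] Computable in
theorem mv_of_FV [Infinite A] {r : A → A → Prop} (hr : ∃ a b c d, ¬ r a b ∧ ¬ r c d ∧ a ≠ c)
    {ν : ℕ → A} {x y : A} (h : Mv (aj r) (FV ν) (.v x) (.v y)) : Mv r ν x y := by
  obtain ⟨φ, f, h1, h2, h3, h8⟩ := h
  obtain ⟨ψ, h4, h5⟩ := aut_res hr h1
  refine ⟨ψ, fun n => f (4 * n + 1) / 4, h4, by fun_prop, fun n => ?_, by simpa [h5] using h8⟩
  have h6 := h3 (4 * n + 1)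
  have h7 : FV ν (4 * n + 1) = .v (ν n) := by
    simp [FV, (by omega : (4 * n + 1) % 4 = 1), (by omega : (4 * n + 1) / 4 = n)]
  rw [h7, h5] at h6
  rcases mod4 (f (4 * n + 1)) with h | h | h | h <;> simp_all [FV]

theorem ppG [Infinite A] {r : A → A → Prop} (hr : ∃ a b c d, ¬ r a b ∧ ¬ r c d ∧ a ≠ c) {v : A}
    {n : ℕ} (h : PP r v n) : PP (aj r) (.v v) n := by
  obtain ⟨ν, w, h1, h2, h3, h4, h5⟩ := h
  refine ⟨FV ν, fun i => .v (w i), con_FV h1, fun μ hμ => ?_, fun i => ?_, fun φ hφ => ?_,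
    fun i hi j hj h => h5 i hi j hj (mv_of_FV hr h)⟩
  · obtain ⟨κ, h6, h7⟩ := exists_FV hμ
    exact (h7.symm (con_FV h6) hμ).trans (aeq_FV (h2 κ h6))
  · obtain ⟨φ, h6, h7⟩ := h3 i
    exact ⟨Vx.equiv φ, aj_equiv h6, congrArg Vx.v h7⟩
  · obtain ⟨ψ, h6, h7⟩ := aut_res hr hφ
    obtain ⟨i, hi, h8⟩ := h4 ψ h6
    exact ⟨i, hi, by rw [h7]; exact mv_FV h8⟩

def AeqC (r : A → A → Prop) (v : A) (ν μ : ℕ → A) : Prop :=
  ∃ (φ : A ≃ A) (f : ℕ → ℕ), (∀ a b, r (φ a) (φ b) ↔ r a b) ∧ φ v = v ∧ Computable f ∧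
    ∀ n, φ (ν n) = μ (f n)

theorem AeqC.refl (r : A → A → Prop) (v : A) (ν : ℕ → A) : AeqC r v ν ν :=
  ⟨Equiv.refl _, id, fun _ _ => Iff.rfl, rfl, Computable.id, fun _ => rfl⟩

theorem AeqC.trans {r : A → A → Prop} {v : A} {ν μ κ : ℕ → A} (h : AeqC r v ν μ)
    (h' : AeqC r v μ κ) : AeqC r v ν κ := by
  obtain ⟨φ, f, h0, h3, h1, h2⟩ := h
  obtain ⟨φ', f', h0', h3', h1', h2'⟩ := h'
  exact ⟨φ.trans φ', f' ∘ f, fun a b => by simp [h0, h0'], by simp [h3, h3'], h1'.comp h1,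
    fun n => by simp [h2, h2']⟩

attribute [local irreducible] Computable in
theorem AeqC.symm {r : A → A → Prop} {v : A} {ν μ : ℕ → A} (h : AeqC r v ν μ) (hν : Con r ν)
    (hμ : Con r μ) : AeqC r v μ ν := by
  obtain ⟨φ, f, h0, h3, h1, h2⟩ := h
  obtain ⟨-, E, -, e1, -, e3, -⟩ := hμ
  have hex : ∀ m, ∃ n, E (f n, m) = true := fun m => by
    obtain ⟨n, hn⟩ := hν.1 (φ.symm (μ m))
    exact ⟨n, (e3 _ _).2 (by rw [← h2, hn]; simp)⟩
  refine ⟨φ.symm, fun m => Nat.find (hex m), fun a b => by rw [← h0]; simp,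
    by rw [Equiv.symm_apply_eq, h3],
    CFP.find (p := fun m n => E (f n, m)) (by fun_prop) hex, fun m => ?_⟩
  rw [← (e3 _ _).1 (Nat.find_spec (hex m)), ← h2]; simp

def PackC (r : A → A → Prop) (v : A) (n : ℕ) : Prop :=
  ∃ ν : ℕ → ℕ → A, (∀ i, Con r (ν i)) ∧ (∀ μ, Con r μ → ∃ i < n, AeqC r v μ (ν i)) ∧
    ∀ i < n, ∀ j < n, AeqC r v (ν i) (ν j) → i = j

theorem PP.pack {r : A → A → Prop} {v : A} {n : ℕ} (h : PP r v n) : Pack r 1 := by
  obtain ⟨ν, -, h1, h2, -⟩ := h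
  exact ⟨fun _ => ν, fun _ => h1, fun μ hμ => ⟨0, by omega, h2 μ hμ⟩, fun i hi j hj _ => by omega⟩

theorem PP.packC {r : A → A → Prop} {v : A} {n : ℕ} (h : PP r v n) : PackC r v n := by
  obtain ⟨ν, w, h1, h2, h3, h4, h5⟩ := h
  choose φ h6 h7 using h3
  have h8 : ∀ i a b, r ((φ i).symm a) ((φ i).symm b) ↔ r a b := fun i a b => by
    rw [← h6 i]; simp
  refine ⟨fun i n => (φ i).symm (ν n), fun i => ?_, fun μ hμ => ?_, fun i hi j hj h => ?_⟩
  · obtain ⟨hs, Q, E, e1, e2, e3, e4⟩ := h1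
    exact ⟨(φ i).symm.surjective.comp hs, Q, E, e1, e2, fun a b => by simp [e3],
      fun a b => by rw [e4, h8]⟩
  · obtain ⟨θ, f, a1, a2, a3⟩ := h2 μ hμ
    obtain ⟨i, hi, χ, g, b1, b2, b3, b4⟩ := h4 θ a1
    refine ⟨i, hi, (θ.trans χ).trans (φ i).symm, g ∘ f, fun a b => by simp [h8, b1, a1], ?_,
      b2.comp a2, fun m => by simp [a3, b3]⟩
    simp [b4, ← h7]
  · obtain ⟨χ, g, b1, b4, b2, b3⟩ := h
    refine h5 i hi j hj ⟨((φ i).symm.trans χ).trans (φ j), g, fun a b => by simp [h6, b1, h8],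
      b2, fun m => by simp [b3], ?_⟩
    simp [← h7, b4]

attribute [local irreducible] Computable in
theorem constrC_iff (G : SimpleGraph V) (v : V) (ν : ℕ → V) : IsConstrC G v ν ↔ Con G.Adj ν := by
  constructor
  · rintro ⟨hs, h⟩
    obtain ⟨-, Q, E, e1, e2, e3, e4⟩ := (constr_iff G (pt v ν)).1
      ⟨fun x => let ⟨n, hn⟩ := hs x; ⟨n + 1, hn⟩, h⟩
    exact ⟨hs, fun x => Q (x.1 + 1, x.2 + 1), fun x => E (x.1 + 1, x.2 + 1), by fun_prop,
      by fun_prop, fun a b => e3 _ _, fun a b => e4 _ _⟩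
  · rintro ⟨hs, Q, E, e1, e2, e3, e4⟩
    obtain ⟨m, hm⟩ := hs v
    let g : ℕ → ℕ := fun n => if n = 0 then m else n - 1
    have hg : Computable g := CFP.ite (CFP.decEq CFP.id (CFP.const _)) (CFP.const _) (by fun_prop)
    have h1 : ∀ n, pt v ν n = ν (g n) := fun n => by cases n <;> simp [pt, g, hm]
    clear_value g
    refine ⟨hs, ((constr_iff G (pt v ν)).2 ⟨fun x => let ⟨n, hn⟩ := hs x; ⟨n + 1, hn⟩,
      fun x => Q (g x.1, g x.2), fun x => E (g x.1, g x.2), by fun_prop, by fun_prop,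
      fun a b => ?_, fun a b => ?_⟩).2⟩
    · rw [e3, h1, h1]
    · rw [e4, h1, h1]

theorem autoeqC_iff (G : SimpleGraph V) (v : V) (ν μ : ℕ → V) :
    AutoeqC G v ν μ ↔ AeqC G.Adj v ν μ :=
  ⟨fun ⟨φ, f, h0, h1, h2⟩ => ⟨φ.toEquiv, f, fun _ _ => φ.map_rel_iff, h0, h1, h2⟩,
    fun ⟨φ, f, h0, h3, h1, h2⟩ => ⟨⟨φ, fun {a b} => h0 a b⟩, f, h3, h1, h2⟩⟩

theorem countCatC [Countable V] [Infinite V] {G : SimpleGraph V} (h : Olig G.Adj) (v : V) :
    CountCatC G v := by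
  let := ptStr G v
  have ho : Oligo (Language.graph.withConstants Unit) V := by
    intro n
    obtain ⟨ι, hι, c, hc⟩ := h (n + 1)
    refine ⟨ι, hι, fun w => c (Fin.cons v w), fun w w' e => ?_⟩
    obtain ⟨φ, h1, h2⟩ := hc _ _ e
    have h3 : φ v = v := congrFun h2 0
    refine ⟨⟨φ, fun {m} f x => ?_, fun {m} r x => ?_⟩, funext (fun i => congrFun h2 i.succ)⟩
    · rcases f with f | f
      · exact f.elim
      · cases m
        · exact h3
        · exact f.elim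
    · rcases r with r | r
      · cases r
        exact h1 _ _
      · exact r.elim
  refine ⟨inferInstance, (Language.graph.withConstants Unit).completeTheory V,
    Language.completeTheory.isComplete _ _,
    inferInstance, ⟨Language.Theory.ModelType.of _ V, inferInstanceAs (Infinite V)⟩,
    fun M N hM hN => ?_⟩
  obtain ⟨e1⟩ := iso_of_oligo' (N := M) ho
  obtain ⟨e2⟩ := iso_of_oligo' (N := N) ho
  exact ⟨e2.comp e1.symm⟩

theorem dimC_eq {G : SimpleGraph V} {v : V} {n : ℕ} (h : PackC G.Adj v n) : dimC G v = n := by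
  obtain ⟨ν, h1, h2, h3⟩ := h
  refine le_antisymm (iSup₂_le (fun S hS => ?_)) ?_
  · choose! E hE1 hE using h2
    have hc : ∀ x ∈ S, Con G.Adj x := fun x hx => (constrC_iff G v x).1 (hS.1 x hx)
    have h4 : Set.InjOn E S := by
      intro x hx y hy e
      by_contra hxy
      refine hS.2 hx hy hxy ((autoeqC_iff G v _ _).2 ((hE x (hc x hx)).trans ?_))
      rw [e]
      exact (hE y (hc y hy)).symm (hc y hy) (h1 _)
    rw [← h4.encard_image]
    refine (Set.encard_le_encard (t := ↑(Finset.range n)) ?_).trans ?_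
    · rintro _ ⟨x, hx, rfl⟩
      simpa using hE1 x (hc x hx)
    · rw [Set.encard_coe_eq_coe_finsetCard, Finset.card_range]
  · have h4 : Set.InjOn ν ↑(Finset.range n) := fun i hi j hj e =>
      h3 i (by simpa using hi) j (by simpa using hj) (e ▸ AeqC.refl _ _ _)
    refine le_iSup₂_of_le (ν '' ↑(Finset.range n)) ⟨?_, ?_⟩ ?_
    · rintro _ ⟨i, -, rfl⟩
      exact (constrC_iff G v _).2 (h1 i)
    · rintro _ ⟨i, hi, rfl⟩ _ ⟨j, hj, rfl⟩ hxy h5
      exact hxy (by
        rw [h3 i (by simpa using hi) j (by simpa using hj) ((autoeqC_iff G v _ _).1 h5)])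
    · rw [h4.encard_image, Set.encard_coe_eq_coe_finsetCard, Finset.card_range]

attribute [local irreducible] Computable in
theorem not_effInfC {G : SimpleGraph V} {v : V} {n : ℕ} (hn : 0 < n) (h : PackC G.Adj v n) :
    ¬ EffInfC G v := by
  obtain ⟨ν, h1, h2, -⟩ := h
  rintro ⟨F, -, hF⟩
  choose f hf e using fun i => ComputablePred.computable_iff.1 ((constrC_iff G v _).2 (h1 i)).2
  obtain ⟨c, hc⟩ := exists_index (S := {p : ℕ × (Bool × Bool × ℕ × ℕ) |
      p.2 ∈ ADc G v (ν (p.1 % n))})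
    (ComputablePred.computable_iff.2 ⟨fun p => f (p.1 % n) p.2,
      c_fin (k := n) (f := fun i (p : ℕ × (Bool × Bool × ℕ × ℕ)) => f i p.2)
        (c := fun p => p.1 % n) (fun i _ => (hf i).comp Computable.snd) (by fun_prop)
        (fun _ => Nat.mod_lt _ hn),
      funext (fun p => congrFun (e (p.1 % n)) p.2)⟩)
  obtain ⟨-, -, μ, h3, -, h4⟩ := hF c (fun i => ν (i % n))
    (fun i => (constrC_iff G v _).2 (h1 _)) hc
  obtain ⟨i, hi, hE⟩ := h2 μ ((constrC_iff G v _).1 h3)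
  refine h4 i ?_
  rw [Nat.mod_eq_of_lt hi]
  exact (autoeqC_iff G v _ _).2 hE

/-- The autostable graph whose expansion by a constant has dimension `K + 2`. -/
def HK (K : ℕ) : SimpleGraph (Vx (AK (K + 1))) where
  Adj := aj (rK (K + 1))
  symm := ⟨fun _ _ => aj_symm⟩
  loopless := ⟨aj_irrefl _⟩

theorem mainC (K : ℕ) : ∃ v, CountCat (HK K) ∧ dim (HK K) = 1 ∧ CountCatC (HK K) v ∧
    (∃ ν, IsConstrC (HK K) v ν) ∧ dimC (HK K) v = (K + 2 : ℕ) ∧ ¬ EffInfC (HK K) v := by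
  have hp : PP (HK K).Adj _ (K + 2) := ppG ⟨.inr (fun _ => false), .inr (fun _ => false),
    .inr (fun _ => true), .inr (fun _ => false), id, id,
    fun e => by simpa using congrFun (Sum.inr.inj e) 0⟩ (ppK K)
  obtain ⟨ν, -, h1, -⟩ := id hp
  have : Countable (Vx (AK (K + 1))) := h1.1.countable
  have : Infinite (Vx (AK (K + 1))) :=
    Infinite.of_injective Vx.v (fun _ _ e => by simpa using e)
  exact ⟨_, countCat (oligG (oligK _)), dim_eq hp.pack, countCatC (oligG (oligK _)) _,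
    ⟨ν, (constrC_iff _ _ _).2 h1⟩, dimC_eq hp.packC, not_effInfC (by omega) hp.packC⟩

end Pool.Agent.P.MP_dc233e_lc.Cn
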